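import Mathlib
import Pool.Agent.Lib.MP_939ffc_anC.Main3

/-!
# MP_939ffc_an: convex bodies circumscribed about a ball
-/

open MeasureTheory Set Metric
open Pool.Agent.Lib.MP_deb14e_an Pool.Agent.MPdeb14eM

namespace Pool.Agent.Results.MP_939ffc_an.CircumscribedBodies

open BM939

/-- For `n ≥ 3`, every bounded open convex set `Ω` of `ℝ^n` which is circumscribed about a ball satisfies
`F(Ω) ≤ F(B)` for every ball `B`, with equality only if `Ω` is a ball. -/
theorem result (n : ℕ) (hn : 3 ≤ n) (Ω : Set (E n)) (hΩ : ConvexDomain Ω) (c : E n) (r : ℝ)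
    (hr : 0 < r) (h : Circumscribed Ω c r) (c' : E n) (r' : ℝ) (hr' : 0 < r') :
    calF Ω ≤ calF (ball c' r') ∧ (calF Ω = calF (ball c' r') ↔ Ω = ball c r) := by
  obtain ⟨m, rfl⟩ : ∃ m, n = m + 1 := ⟨n - 1, by omega⟩
  refine ⟨main (by omega) hΩ hr h hr', fun he => ?_, fun he => ?_⟩
  · by_contra hne
    exact (main_lt (by omega) hΩ hr h hne hr').ne he
  · rw [he]
    exact calF_ball (by omega) c c' hr hr'

end Pool.Agent.Results.MP_939ffc_an.CircumscribedBodies
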