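import Mathlib
import Pool.Agent.Lib.MP_939ffc_anD.Main5
import Pool.Agent.Lib.MP_939ffc_anD.Cube2
import Pool.Agent.Lib.MP_939ffc_anD.Iso
import Pool.Agent.Lib.MP_939ffc_anE.Main6

/-!
# MP_939ffc_an: diagonal images of symmetric bodies; ellipsoids and parallelepipeds
-/

open MeasureTheory Set Metric
open Pool.Agent.Lib.MP_deb14e_an Pool.Agent.MPdeb14eM

namespace Pool.Agent.Results.MP_939ffc_an.EllipsoidsAndBoxes

open BM939

/-- Let `n ≥ 3` and `a i > 0`. For every convex body `K` of `ℝ^n` invariant under all signed permutations of the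
coordinates and its image `AK` under the diagonal map with entries `a i`: `F(AK) ≤ F(K)`, with equality if and only if
all `a i` are equal; and if `K` is circumscribed about a ball, then `F(AK) ≤ F(B)` for every ball `B`. Every ellipsoid
`X` with semiaxes `a i` (in any position) has `F(X) ≤ F(B)` for every ball `B`, with equality if and only if all `a i`
are equal. Every parallelepiped `Q = p + L((-1,1)^n)` has `F(Q) ≤ F((-1,1)^n)` and `F(Q) < F(B)` for every ball `B`. -/
theorem result (n : ℕ) (hn : 3 ≤ n) (a : Fin n → ℝ) (ha : ∀ i, 0 < a i) :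
    (∀ K : Set (E n), ConvexDomain K → SignedPermInvariant K →
      calF (dil a K) ≤ calF K ∧ (calF (dil a K) = calF K ↔ ∀ i j, a i = a j) ∧
      ∀ (c : E n) (r : ℝ), 0 < r → Circumscribed K c r → ∀ (c' : E n) (r' : ℝ), 0 < r' →
        calF (dil a K) ≤ calF (ball c' r')) ∧
    (∀ (φ : E n ≃ᵢ E n) (c : E n) (r : ℝ), 0 < r →
      calF (φ '' {x : E n | ∑ i, (x i / a i) ^ 2 < 1}) ≤ calF (ball c r) ∧
      (calF (φ '' {x : E n | ∑ i, (x i / a i) ^ 2 < 1}) = calF (ball c r) ↔ ∀ i j, a i = a j)) ∧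
    ∀ (L : E n ≃ₗ[ℝ] E n) (p : E n),
      calF ((fun x => p + L x) '' {x : E n | ∀ i, |x i| < 1}) ≤ calF {x : E n | ∀ i, |x i| < 1} ∧
      ∀ (c : E n) (r : ℝ), 0 < r →
        calF ((fun x => p + L x) '' {x : E n | ∀ i, |x i| < 1}) < calF (ball c r) := by
  obtain ⟨m, rfl⟩ : ∃ m, n = m + 1 := ⟨n - 1, by omega⟩
  have hm : 2 ≤ m := by omega
  have hball := convexDomain_ball1 (m + 1)
  refine ⟨fun K hK hs => ⟨main5_le hm hK hs ha, main5_iff hm hK hs ha, fun c r hr hC c' r' hr' =>
    (main5_le hm hK hs ha).trans (main hm hK hr hC hr')⟩, fun φ c r hr => ?_, fun L p => ?_⟩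
  · rw [calF_isometry, ellipsoid_eq ha]
    have e : calF (ball c r) = calF (ball (0 : E (m + 1)) 1) := calF_ball (by omega) c 0 hr one_pos
    rw [e]
    exact ⟨main5_le hm hball (sym_ball _) ha, main5_iff hm hball (sym_ball _) ha⟩
  · have e : calF ((fun x => p + L x) '' {x : E (m + 1) | ∀ i, |x i| < 1}) =
        calF (L '' cube (m + 1)) := by
      have h1 : (fun x => p + L x) '' {x : E (m + 1) | ∀ i, |x i| < 1} =
          (IsometryEquiv.addLeft p) '' (L '' cube (m + 1)) := by
        rw [image_image]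
        rfl
      rw [h1, calF_isometry]
    rw [e]
    have h2 := main6_le hm L
    exact ⟨h2, fun c r hr => h2.trans_lt
      (main_lt hm (convexDomain_cube _) one_pos (circumscribed_cube _) (cube_ne (by omega)) hr)⟩

end Pool.Agent.Results.MP_939ffc_an.EllipsoidsAndBoxes
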