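import Mathlib
import Pool.Agent.Lib.MP_939ffc_anC.Main4

/-!
# MP_939ffc_an: a bound for all convex bodies in terms of a contained ball
-/

open MeasureTheory Set Metric
open Pool.Agent.Lib.MP_deb14e_an Pool.Agent.MPdeb14eM

namespace Pool.Agent.Results.MP_939ffc_an.InscribedBall

open BM939

/-- For `n ≥ 3`, every bounded open convex set `Ω` of `ℝ^n` and every ball `B ⊆ Ω`,
`F(Ω) ≤ (|Ω| P(B) / (P(Ω) |B|))^(n^2-1) F(B)`, with equality if and only if `Ω = B`. -/
theorem result (n : ℕ) (hn : 3 ≤ n) (Ω : Set (E n)) (hΩ : ConvexDomain Ω) (c : E n) (r : ℝ)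
    (hr : 0 < r) (h : ball c r ⊆ Ω) :
    calF Ω ≤ ((volume Ω).toReal * perimeter n (ball c r) /
      (perimeter n Ω * (volume (ball c r)).toReal)) ^ (n ^ 2 - 1) * calF (ball c r) ∧
    (calF Ω = ((volume Ω).toReal * perimeter n (ball c r) /
      (perimeter n Ω * (volume (ball c r)).toReal)) ^ (n ^ 2 - 1) * calF (ball c r) ↔
      Ω = ball c r) := by
  obtain ⟨m, rfl⟩ : ∃ m, n = m + 1 := ⟨n - 1, by omega⟩
  refine ⟨main2 (by omega) hΩ hr h, fun he => ?_, fun he => ?_⟩
  · by_contra hne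
    exact (main4 (by omega) hΩ hr h hne).ne he
  · rw [he]
    exact main4_ball c hr

end Pool.Agent.Results.MP_939ffc_an.InscribedBall
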