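import Mathlib
import Pool.Agent.Lib.MP_939ffc_anG.Main8
import Pool.Agent.Lib.MP_939ffc_anJ.UnivJ
import Pool.Agent.Lib.MP_939ffc_anJ.AsymJ
import Pool.Agent.Lib.MP_939ffc_anH.DefsH

/-!
# MP_939ffc_an: the conjecture holds for convex sets with a large isoperimetric ratio
-/

open MeasureTheory Set Metric
open Pool.Agent.Lib.MP_deb14e_an Pool.Agent.MPdeb14eM

namespace Pool.Agent.Results.MP_939ffc_an.SharpIsoperimetricRatio

open BM939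

/-- Let `n ≥ 3`, `Ω` a bounded open convex set of `ℝ^n`, `B = ball 0 t` with `|B| = |Ω|`, `q = P(Ω) / P(B)`, `B'` any ball.
(1) `F(Ω) ≤ (6 n) ^ 2 / q ^ (n (n - 2)) * F(B')`. (2) If `(6 n) ^ 2 < q ^ (n (n - 2))` then `F(Ω) < F(B')`.
(3) For each `ε > 0` and all large `n`: `F(Ω) < F(B')` for every bounded open convex `Ω` of `ℝ^n` with `q ≥ 1 + ε`.
(4) If `‖x‖ ≤ R` on `Ω`: (a) if `(R / t) ^ 2 ≤ q ^ (n ^ 2 - 2)`, then `F(Ω) ≤ F(B')` for every ball `B'`;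
(b) if `0 ∈ Ω` then the momentum about `0` is at most `upperMom Ω R t`;
(c) if `0 ∈ Ω` and `upperMom Ω R t ≤ t ^ 2 P(B) q ^ (n ^ 2 - 1)`, then `F(Ω) ≤ F(B')` for every ball `B'`. -/
theorem result :
    (∀ n : ℕ, 3 ≤ n → ∀ (Ω : Set (E n)) (t : ℝ), ConvexDomain Ω → VolRadius Ω t →
      (∀ (c : E n) (r : ℝ), 0 < r →
        calF Ω ≤ (6 * (n : ℝ)) ^ 2 / isoRatio Ω t ^ (n * (n - 2)) * calF (ball c r)) ∧
      ((6 * (n : ℝ)) ^ 2 < isoRatio Ω t ^ (n * (n - 2)) → BelowBalls Ω) ∧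
      ∀ R : ℝ, (∀ x ∈ Ω, ‖x‖ ≤ R) →
        ((R / t) ^ 2 ≤ isoRatio Ω t ^ (n ^ 2 - 2) → AtMostBalls Ω) ∧
        ((0 : E n) ∈ Ω → momentum Ω 0 ≤ upperMom Ω R t ∧
          (upperMom Ω R t ≤ t ^ 2 * perimeter n (ball (0 : E n) t) * isoRatio Ω t ^ (n ^ 2 - 1) →
            AtMostBalls Ω))) ∧
    ∀ ε : ℝ, 0 < ε → ∃ N : ℕ, ∀ n : ℕ, N ≤ n → ∀ (Ω : Set (E n)) (t : ℝ), ConvexDomain Ω →
      VolRadius Ω t → 1 + ε ≤ isoRatio Ω t → BelowBalls Ω := by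
  have hA : ∀ n : ℕ, 3 ≤ n → ∀ (Ω : Set (E n)) (t : ℝ), ConvexDomain Ω → VolRadius Ω t →
      (6 * (n : ℝ)) ^ 2 < isoRatio Ω t ^ (n * (n - 2)) → BelowBalls Ω := by
    intro n hn Ω t hΩ ht h c r hr
    obtain ⟨m, rfl⟩ : ∃ m, n = m + 1 := ⟨n - 1, by omega⟩
    have e2 : m + 1 - 2 = m - 1 := by omega
    rw [e2] at h
    push_cast at h
    exact big_J (by omega) hΩ ht.1 ht.2 h c hr
  refine ⟨fun n hn Ω t hΩ ht => ⟨?_, hA n hn Ω t hΩ ht, ?_⟩, ?_⟩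
  · intro c r hr
    obtain ⟨m, rfl⟩ : ∃ m, n = m + 1 := ⟨n - 1, by omega⟩
    have e2 : m + 1 - 2 = m - 1 := by omega
    rw [e2]
    push_cast
    exact univ_J (by omega) hΩ ht.1 ht.2 c hr
  · intro R hR
    obtain ⟨ht, hvol⟩ := ht
    obtain ⟨m, rfl⟩ : ∃ m, n = m + 1 := ⟨n - 1, by omega⟩
    have hm : 2 ≤ m := by omega
    have hP : 0 < perimeter (m + 1) Ω := perimeter_pos hΩ
    have hPB : 0 < perimeter (m + 1) (ball (0 : E (m + 1)) t) :=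
      perimeter_pos ⟨⟨0, mem_ball_self ht⟩, isBounded_ball, isOpen_ball, convex_ball _ _⟩
    refine ⟨fun h c r hr => ?_, fun h0 => ⟨main8_mom hΩ h0 hR ht hvol, fun h c r hr => ?_⟩⟩
    · refine crit hm hΩ ht hvol ((momentum_le_sq hΩ hR).trans ?_) c hr
      unfold isoRatio at h
      obtain ⟨q, hq⟩ : ∃ q, q = perimeter (m + 1) Ω / perimeter (m + 1) (ball (0 : E (m + 1)) t) :=
        ⟨_, rfl⟩
      have e1 : perimeter (m + 1) Ω = q * perimeter (m + 1) (ball (0 : E (m + 1)) t) := by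
        rw [hq, div_mul_cancel₀ _ hPB.ne']
      have hq0 : 0 < q := by rw [hq]; positivity
      have e2 : (m + 1) ^ 2 - 1 = ((m + 1) ^ 2 - 2) + 1 := by
        have : 9 ≤ (m + 1) ^ 2 := by nlinarith
        omega
      have e3 : R ^ 2 = t ^ 2 * (R / t) ^ 2 := by
        field_simp
      rw [← hq] at h ⊢
      rw [e1, e2, pow_succ q, e3]
      calc t ^ 2 * (R / t) ^ 2 * (q * perimeter (m + 1) (ball (0 : E (m + 1)) t))
          = (t ^ 2 * perimeter (m + 1) (ball (0 : E (m + 1)) t) * q) * (R / t) ^ 2 := by ring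
        _ ≤ (t ^ 2 * perimeter (m + 1) (ball (0 : E (m + 1)) t) * q) * q ^ ((m + 1) ^ 2 - 2) :=
            mul_le_mul_of_nonneg_left h (by positivity)
        _ = _ := by ring
    · exact crit hm hΩ ht hvol ((main8_mom hΩ h0 hR ht hvol).trans h) c hr
  · intro ε hε
    obtain ⟨N, hN3, hN⟩ := asym_J (half_pos hε)
    refine ⟨N, fun n hn Ω t hΩ ht h => hA n (hN3.trans hn) Ω t hΩ ht ?_⟩
    have hne : n * (n - 2) ≠ 0 := Nat.mul_ne_zero (by omega) (by omega)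
    refine (hN n hn).trans_lt (pow_lt_pow_left₀ ?_ (by linarith) hne)
    linarith

end Pool.Agent.Results.MP_939ffc_an.SharpIsoperimetricRatio
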